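import Pool.Agent.N471.EL.Final

set_option autoImplicit false

/-!
# Polynomial Gyárfás–Sumner for graphs with equality labels and thresholds

A graph has a scheme with `s` labels and `r` thresholds if its vertices `x` have labels
`lab x 1, …, lab x s` (elements of any set) such that the adjacency of `x` and `y` is decided as
follows. One looks at the pattern `E` of the coincidences `lab x i = lab y j`. For every pattern
`E` there are `r` pairs of functions `a E i`, `b E i` from the vertices to a linear order; `x` and
`y` are adjacent if and only if `a E i x < b E i y` for some `i ≤ r`, where `E` is the pattern of
`x` and `y`. So every Boolean combination of the coincidences is allowed (equality-based adjacency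
labelling schemes, i.e. communication protocols of bounded cost with an equality oracle), followed
by a disjunction of comparisons. Examples: unions of boundedly many line digraphs or shift graphs
and arbitrary subgraphs induced in them; `x ~ y` for `x < y` if `f i x = g i y` for some `i`;
half-graphs, threshold graphs and complements of interval graphs, also in arbitrary mixtures with
the former. The graphs may contain arbitrarily large half-graphs (they are not stable).

Theorem. For all `s` and `r` there are `A` and `d` such that every finite graph `G` which has such
a scheme and does not contain the forest `F` on `m` vertices as an induced subgraph satisfies
`χ(G) ≤ A (m + ω(G)) ^ d`. The bound is polynomial in the clique number and in the number of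
vertices of the forest, and the degree `d` depends neither on `F` nor on `ω(G)`. So `G` contains
all forests with at most `c χ(G) ^ (1 / d)` vertices as induced subgraphs, if `ω(G)` is at most
`c χ(G) ^ (1 / d)`.

Proof. The state of a set `W` of vertices consists of the functional dependencies between the labels
of the members of `W` and of the types (pattern, threshold) of the edges inside `W`. There are
boundedly many states, so there is `W` such that all subsets of large chromatic number have the same
state. Choose a type of an edge `x y` inside `W` for which the set `I` of the labels determined by
the labels of `y` which take part in coincidences with `x` is as small as possible. A vertex is poor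
if the vertices above it with the same labels in `I` can be covered by few values of the other
labels. The poor vertices, and the vertices without neighbour of the chosen type, can be removed from
`W` repeatedly: by the choice of `W` they have small chromatic number. If some label of `x` which
takes part in the coincidences is not in `I`, then every tree can be built in the remaining sets, a
new leaf being a neighbour of the chosen type all of whose labels outside `I` are new: since `I` is
minimal, it has no other neighbours. The other case is excluded by cliques, which are obtained from
chains in a cell, and by `3`-colourings of a partial permutation of the cells.
-/

namespace Pool.Agent.Results.MP_763321_co.EqualityLabels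

/-- The set of the coincidences between the labels of `x` and of `y`. -/
def pattern {V C : Type} {s : ℕ} (lab : V → Fin s → C) (x y : V) : Set (Fin s × Fin s) :=
  {p | lab x p.1 = lab y p.2}

/-- `G` has a scheme with `s` labels and `r` thresholds. -/
def HasScheme (s r : ℕ) {V : Type} (G : SimpleGraph V) : Prop :=
  ∃ (C L : Type) (_ : LinearOrder L) (lab : V → Fin s → C)
    (a b : Set (Fin s × Fin s) → Fin r → V → L), ∀ x y, x ≠ y →
      (G.Adj x y ↔ ∃ i, a (pattern lab x y) i x < b (pattern lab x y) i y)

theorem result (s r : ℕ) : ∃ A d : ℕ, ∀ (m : ℕ) (F : SimpleGraph (Fin m)), F.IsAcyclic →
    ∀ (V : Type) [Finite V] (G : SimpleGraph V), HasScheme s r G → ¬ F.IsIndContained G →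
      G.chromaticNumber ≤ (A * (m + G.cliqueNum) ^ d : ℕ) := by
  obtain ⟨A, d, h⟩ := Pool.Agent.N471.EL.main s r
  refine ⟨A, d, ?_⟩
  intro m F hF V _ G hG hFG
  refine (h m F hF V G hG hFG G.cliqueNum ?_).chromaticNumber_le
  intro l hl
  have h1 := hl.isClique.card_le_cliqueNum
  have h2 := hl.card_eq
  omega

end Pool.Agent.Results.MP_763321_co.EqualityLabels
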