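import Pool.Agent.N471.ST.Final

set_option autoImplicit false

/-!
# Polynomial Gyárfás–Sumner for graphs without large half-graphs, with a uniform degree

All graphs are finite.  `G` has a half-graph of order `n` if there are vertices `a_1, …, a_n` and
`b_1, …, b_n` with `a_i ~ b_j` if and only if `i ≤ j` (nothing is assumed on the pairs `a_i a_j` and
`b_i b_j`).

**(1)** For every `n`, every forest `F` on `m` vertices and every graph `G` without half-graph of
order `n` and without induced subgraph `F`,

`χ(G) ≤ ((8 n + 5) (m + ω(G) + 2)) ^ (2 ^ (2 ^ (2 n + 2) - 2) - 1)`.

For fixed `n` this is polynomial in the clique number and in the number of vertices of the forest, and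
the degree depends on `n` only, not on the forest: edge-stable graphs satisfy a uniform polynomial
Gyárfás–Sumner theorem.  For all graphs `G` and forests `F` on `m` vertices which are not induced in
`G`, the theorem says that `G` contains half-graphs of order about `½ log log log χ(G)` (if `ω(G)` and
`m` are bounded, say): a counterexample to the conjecture contains large half-graphs, with an explicit
bound.

The starting results prove that `χ(G)` is bounded by an unspecified function of `n`, `F` and `ω(G)`
(theorem `Pool.Agent.H367R3.gyarfas_sumner_stable`); its proof gives a bound whose degree grows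
linearly with the number of vertices of `F`.

**(2), (3)** The polynomial forms of the starting result `ZeroPatterns`, with a degree depending
neither on `F` nor on `ω`: for all `s` and `r` there are `A` and `d` such that
`χ(G) ≤ c A (m + ω(G)) ^ d` for every forest `F` on `m` vertices, every graph `G` without induced `F`
and every `c`-colourable graph `P` of exceptional pairs, if for every edge `x y` of `G` there are `s`
matrices of rank at most `r` over fields and a Boolean function which computes the adjacency in `G` of
`u` and `v` from the positions of the zeros among the `(u, v)` entries of the matrices, for all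
`u ∈ N(y)`, `v ∈ N(x)`, `u ≠ v`, such that `u v` is not exceptional; the same for `s` polynomials of
degree at most `D` in `2 d` variables.  With `P` empty and the same polynomials for all edges these are
the graphs whose adjacency is a Boolean combination of boundedly many polynomial equations of bounded
degree (orthogonality graphs, unit distance graphs, point-line incidences, equality labels, ...).

Proof of (1).  As in the starting proof sets are measured by a splitting rank, which is bounded in
graphs without large half-graphs.  Let all neighbourhoods inside a set `A` be covered by `q` sets of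
rank at most `w + 1`.  A set `W` of this rank is rich if `A ∩ W` is not covered by `M` sets of smaller
rank and some vertex of `A` is adjacent to almost all of `W`; it is closed if almost all `y` in `A ∩ W`
are such that all rich sets of which `y` is a typical neighbour are typical neighbours of `W`.  New is
the following.  The part of `A` which lies in closed sets has a partition into `q + 1` sets without
rich sets.  This part is removed, which makes new sets closed, and this is repeated `m` times, so that
the numbers of colours are added and not multiplied.  Either no rich set is left (then all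
neighbourhoods are covered by `q M` sets of rank at most `w`, and one proceeds by induction on `w`), or
every tree with `m` edges can be embedded, going back from the last to the first stage.
-/

namespace Pool.Agent.Results.MP_763321_co.PolynomialStable

/-- `G` has a half-graph of order `n`. -/
def HasHalfGraph {V : Type} (G : SimpleGraph V) (n : ℕ) : Prop :=
  ∃ a b : Fin n → V, ∀ i j, G.Adj (a i) (b j) ↔ i ≤ j

theorem result :
    -- (1) graphs without half-graph of order `n`
    (∀ (n m : ℕ) (F : SimpleGraph (Fin m)), F.IsAcyclic →
      ∀ (V : Type) [Finite V] (G : SimpleGraph V), ¬ HasHalfGraph G n → ¬ F.IsIndContained G →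
        G.chromaticNumber ≤
          (((8 * n + 5) * (m + G.cliqueNum + 2)) ^ (2 ^ (2 ^ (2 * n + 2) - 2) - 1) : ℕ)) ∧
    -- (2) zero patterns of matrices of bounded rank
    (∀ s r : ℕ, ∃ A d : ℕ, ∀ (m : ℕ) (F : SimpleGraph (Fin m)), F.IsAcyclic →
      ∀ (V : Type) [Fintype V] (G P : SimpleGraph V) (c : ℕ), P.Colorable c →
        (∀ x y, G.Adj x y → ∃ (K : Fin s → Type) (_ : ∀ t, Field (K t))
          (M : ∀ t, Matrix V V (K t)) (φ : (Fin s → Prop) → Prop), (∀ t, (M t).rank ≤ r) ∧
          ∀ u v, G.Adj y u → G.Adj x v → u ≠ v → ¬ P.Adj u v →
            (G.Adj u v ↔ φ fun t => M t u v = 0)) →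
        ¬ F.IsIndContained G →
          G.chromaticNumber ≤ (c * (A * (m + G.cliqueNum) ^ d) : ℕ)) ∧
    -- (3) polynomials of bounded degree
    (∀ s d D : ℕ, ∃ A e : ℕ, ∀ (m : ℕ) (F : SimpleGraph (Fin m)), F.IsAcyclic →
      ∀ (V : Type) [Fintype V] (G P : SimpleGraph V) (c : ℕ), P.Colorable c →
        (∀ x y, G.Adj x y → ∃ (K : Type) (_ : Field K) (z : V → Fin d → K)
          (p : Fin s → MvPolynomial (Fin d ⊕ Fin d) K) (φ : (Fin s → Prop) → Prop),
          (∀ t, (p t).totalDegree ≤ D) ∧
          ∀ u v, G.Adj y u → G.Adj x v → u ≠ v → ¬ P.Adj u v →
            (G.Adj u v ↔ φ fun t => MvPolynomial.eval (Sum.elim (z u) (z v)) (p t) = 0)) →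
        ¬ F.IsIndContained G →
          G.chromaticNumber ≤ (c * (A * (m + G.cliqueNum) ^ e) : ℕ)) := by
  refine ⟨?_, ?_, ?_⟩
  · intro n m F hF V _ G hG hFG
    exact Pool.Agent.N471.ST.stable_chi F hF G hG hFG
  · intro s r
    obtain ⟨A, d, h⟩ := Pool.Agent.N471.ST.main_rank_poly s r
    exact ⟨A, d, fun m F hF V _ G P c hP hloc hFG => h m F hF V G P c hP hloc hFG⟩
  · intro s d D
    obtain ⟨A, e, h⟩ := Pool.Agent.N471.ST.main_poly_poly s d D
    exact ⟨A, e, fun m F hF V _ G P c hP hloc hFG => h m F hF V G P c hP hloc hFG⟩

end Pool.Agent.Results.MP_763321_co.PolynomialStable
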